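import Mathlib

/-!
# Common zeros of few polynomials over an algebraically closed field
-/

set_option autoImplicit false

namespace Pool.Agent.H81.CY

open MvPolynomial

section Height

variable {k : Type*} [Field k] {n : ℕ}

/-- The substitution killing the first `j` variables. -/
noncomputable def kill (k : Type*) [Field k] (n j : ℕ) :
    MvPolynomial (Fin n) k →ₐ[k] MvPolynomial (Fin n) k :=
  aeval (fun i => if i.1 < j then 0 else X i)

lemma kill_X_of_lt {j : ℕ} {i : Fin n} (h : i.1 < j) : kill k n j (X i) = 0 := by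
  simp [kill, h]

lemma kill_X_of_le {j : ℕ} {i : Fin n} (h : j ≤ i.1) : kill k n j (X i) = X i := by
  simp [kill, not_lt.2 h]

lemma kill_comp (j : ℕ) : (kill k n (j + 1)).comp (kill k n j) = kill k n (j + 1) := by
  ext1 i
  by_cases h : i.1 < j
  · simp [kill_X_of_lt h, kill_X_of_lt (Nat.lt_succ_of_lt h)]
  · simp [kill_X_of_le (not_lt.1 h)]

lemma height_ker_kill (j : ℕ) (hj : j ≤ n) :
    (j : ℕ∞) ≤ (RingHom.ker (kill k n j).toRingHom).height := by
  induction j with
  | zero => simp
  | succ j ih =>
    have h1 : RingHom.ker (kill k n j).toRingHom < RingHom.ker (kill k n (j + 1)).toRingHom := by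
      rw [lt_iff_le_and_ne]
      refine ⟨fun p hp => ?_, fun he => ?_⟩
      · have h2 : kill k n j p = 0 := hp
        have h3 : kill k n (j + 1) p = 0 := by
          rw [← kill_comp j]
          simp [h2]
        exact h3
      · have hX : (X ⟨j, hj⟩ : MvPolynomial (Fin n) k) ∈
            RingHom.ker (kill k n (j + 1)).toRingHom :=
          kill_X_of_lt (n := n) (i := ⟨j, hj⟩) (Nat.lt_succ_self j)
        rw [← he] at hX
        have h4 : kill k n j (X ⟨j, hj⟩) = 0 := hX
        rw [kill_X_of_le (i := ⟨j, hj⟩) le_rfl] at h4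
        exact X_ne_zero _ h4
    haveI := RingHom.ker_isPrime (kill k n j).toRingHom
    haveI := RingHom.ker_isPrime (kill k n (j + 1)).toRingHom
    have h5 := Ideal.height_add_one_le_of_lt_of_isPrime h1
    have h6 := ih (by omega)
    calc ((j + 1 : ℕ) : ℕ∞) = (j : ℕ∞) + 1 := by push_cast; rfl
      _ ≤ (RingHom.ker (kill k n j).toRingHom).height + 1 := by gcongr
      _ ≤ _ := h5

lemma kill_n (p : MvPolynomial (Fin n) k) : kill k n n p = C (eval 0 p) := by
  have : kill k n n = (Algebra.ofId k _).comp (aeval (0 : Fin n → k)) := by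
    ext1 i
    simp [kill_X_of_lt i.2]
  rw [this]
  simp [Algebra.ofId_apply, MvPolynomial.algebraMap_eq, aeval_eq_eval]

lemma height_vanishing_zero :
    (n : ℕ∞) ≤ (vanishingIdeal k ({0} : Set (Fin n → k))).height := by
  have h : vanishingIdeal k ({0} : Set (Fin n → k)) = RingHom.ker (kill k n n).toRingHom := by
    ext p
    rw [mem_vanishingIdeal_singleton_iff]
    change _ ↔ kill k n n p = 0
    rw [kill_n]
    simp [aeval_eq_eval]
  rw [h]
  exact height_ker_kill n le_rfl

end Height

/-- Fewer than `n` polynomials without constant term over an algebraically closed field have a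
nontrivial common zero in affine `n`-space. -/
theorem exists_zero_fin {k : Type*} [Field k] [IsAlgClosed k] {n : ℕ} {ι : Type*} [Fintype ι]
    (f : ι → MvPolynomial (Fin n) k) (h0 : ∀ j, eval 0 (f j) = 0)
    (hlt : Fintype.card ι < n) : ∃ x : Fin n → k, x ≠ 0 ∧ ∀ j, eval x (f j) = 0 := by
  classical
  by_contra hcon
  push Not at hcon
  set I : Ideal (MvPolynomial (Fin n) k) := Ideal.span (Set.range f) with hI
  have hz : zeroLocus k I = ({0} : Set (Fin n → k)) := by
    ext x
    rw [Set.mem_singleton_iff]
    constructor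
    · intro hx
      by_contra hne
      obtain ⟨j, hj⟩ := hcon x hne
      apply hj
      have := hx (f j) (Ideal.subset_span ⟨j, rfl⟩)
      simpa [aeval_eq_eval] using this
    · rintro rfl
      intro p hp
      have h1 : I ≤ RingHom.ker (eval (0 : Fin n → k)) := by
        rw [hI, Ideal.span_le]
        rintro _ ⟨j, rfl⟩
        exact h0 j
      have h2 : eval 0 p = 0 := h1 hp
      simpa [aeval_eq_eval] using h2
  have hrad : vanishingIdeal k ({0} : Set (Fin n → k)) = I.radical := by
    rw [← hz]
    exact vanishingIdeal_zeroLocus_eq_radical I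
  have hmin : vanishingIdeal k ({0} : Set (Fin n → k)) ∈ I.minimalPrimes := by
    have hp : (vanishingIdeal k ({0} : Set (Fin n → k))).IsPrime := inferInstance
    rw [← Ideal.radical_minimalPrimes, ← hrad]
    rw [Ideal.minimalPrimes_eq_subsingleton_self]
    exact Set.mem_singleton _
  have h3 := Ideal.height_le_card_of_mem_minimalPrimes_span (Set.finite_range f) hmin
  have h4 := height_vanishing_zero (k := k) (n := n)
  have h5 : (Set.range f).ncard ≤ Fintype.card ι := by
    rw [← Set.image_univ]
    refine (Set.ncard_image_le (Set.toFinite _)).trans ?_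
    simp [Set.ncard_univ]
  have h6 : (n : ℕ∞) ≤ (Fintype.card ι : ℕ∞) :=
    h4.trans (h3.trans (by exact_mod_cast h5))
  have h7 : n ≤ Fintype.card ι := by exact_mod_cast h6
  omega

theorem exists_zero {k : Type*} [Field k] [IsAlgClosed k] {σ ι : Type*} [Fintype σ] [Fintype ι]
    (f : ι → MvPolynomial σ k) (h0 : ∀ j, eval 0 (f j) = 0)
    (hlt : Fintype.card ι < Fintype.card σ) : ∃ x : σ → k, x ≠ 0 ∧ ∀ j, eval x (f j) = 0 := by
  classical
  let e := Fintype.equivFin σ
  obtain ⟨x, hx, hz⟩ := exists_zero_fin (fun j => rename e (f j))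
    (fun j => by
      rw [eval_rename]
      have : (0 : Fin (Fintype.card σ) → k) ∘ e = 0 := by ext; simp
      rw [this]
      exact h0 j) hlt
  refine ⟨x ∘ e, fun h => hx ?_, fun j => ?_⟩
  · ext i
    have := congrFun h (e.symm i)
    simpa using this
  · have := hz j
    rwa [eval_rename] at this

end Pool.Agent.H81.CY
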