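import Mathlib

/-!
# Commutative subfields of central division algebras
-/

set_option autoImplicit false

namespace Pool.Agent.H81.CY

open Module

/-- The elements `a i` act independently: if `∑ a i * x * d i = 0` for all `x` and the `a i` are
linearly independent over the centre then all `d i` vanish. -/
theorem indep {F D ι : Type*} [Field F] [DivisionRing D] [Algebra F D] [DecidableEq ι]
    (hc : ∀ z : D, (∀ y, z * y = y * z) → z ∈ Set.range (algebraMap F D))
    (a : ι → D) (ha : LinearIndependent F a) (s : Finset ι) :
    ∀ d : ι → D, (∀ x : D, ∑ i ∈ s, a i * x * d i = 0) → ∀ i ∈ s, d i = 0 := by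
  induction s using Finset.induction_on with
  | empty => intro d _ i hi; simp at hi
  | insert j s hj ih =>
    intro d hd
    by_cases hdj : d j = 0
    · have h1 : ∀ x : D, ∑ i ∈ s, a i * x * d i = 0 := by
        intro x
        have := hd x
        rwa [Finset.sum_insert hj, hdj, mul_zero, zero_add] at this
      intro i hi
      rcases Finset.mem_insert.1 hi with rfl | hi
      · exact hdj
      · exact ih d h1 i hi
    · exfalso
      -- normalise
      set e : ι → D := fun i => d i * (d j)⁻¹ with he
      have hej : e j = 1 := mul_inv_cancel₀ hdj
      have h1 : ∀ x : D, ∑ i ∈ insert j s, a i * x * e i = 0 := by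
        intro x
        have : ∑ i ∈ insert j s, a i * x * e i = (∑ i ∈ insert j s, a i * x * d i) * (d j)⁻¹ := by
          rw [Finset.sum_mul]
          exact Finset.sum_congr rfl fun i _ => by simp only [he, mul_assoc]
        rw [this, hd x, zero_mul]
      have h2 : ∀ y : D, ∀ i ∈ s, e i * y - y * e i = 0 := by
        intro y
        refine ih (fun i => e i * y - y * e i) fun x => ?_
        have h3 := congrArg (· * y) (h1 x)
        have h4 := h1 (x * y)
        simp only [zero_mul] at h3
        rw [Finset.sum_mul, Finset.sum_insert hj] at h3
        rw [Finset.sum_insert hj] at h4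
        rw [hej] at h3 h4
        have h5 : ∑ i ∈ s, a i * x * (e i * y - y * e i) =
            ∑ i ∈ s, a i * x * e i * y - ∑ i ∈ s, a i * (x * y) * e i := by
          rw [← Finset.sum_sub_distrib]
          exact Finset.sum_congr rfl fun i _ => by noncomm_ring
        rw [h5]
        have h6 : a j * x * 1 * y = a j * (x * y) * 1 := by noncomm_ring
        rw [h6] at h3
        rw [sub_eq_zero]
        exact add_left_cancel (h3.trans h4.symm)
      have h3 : ∀ i ∈ insert j s, ∃ c : F, algebraMap F D c = e i := by
        intro i hi
        rcases Finset.mem_insert.1 hi with rfl | hi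
        · exact ⟨1, by rw [map_one, hej]⟩
        · exact hc (e i) fun y => sub_eq_zero.1 (h2 y i hi)
      choose! c hcc using h3
      have h4 : ∑ i ∈ insert j s, c i • a i = 0 := by
        have := h1 1
        rw [← this]
        refine Finset.sum_congr rfl fun i hi => ?_
        rw [mul_one, ← hcc i hi, ← Algebra.commutes, Algebra.smul_def]
      have h5 := (linearIndependent_iff'.1 ha) (insert j s) c h4 j (Finset.mem_insert_self j s)
      have h6 := hcc j (Finset.mem_insert_self j s)
      rw [h5, map_zero, hej] at h6
      exact zero_ne_one h6

section Tower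

variable {F K D : Type*} [Field F] [Field K] [DivisionRing D] [Algebra F K] [Algebra F D]
  [FiniteDimensional F D] [Module K D] [IsScalarTower F K D]

theorem trace_lmul (hmul : ∀ (y : K) (x z : D), y • (x * z) = (y • x) * z) (y : K) :
    LinearMap.trace F D (LinearMap.mulLeft F (y • (1 : D))) =
      finrank K D • Algebra.trace F K y := by
  classical
  have hK : FiniteDimensional F K := by
    refine FiniteDimensional.of_injective (LinearMap.toSpanSingleton K D 1 |>.restrictScalars F) ?_
    intro u v huv
    simp only [LinearMap.coe_restrictScalars, LinearMap.toSpanSingleton_apply] at huv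
    by_contra hne
    have h1 : (u - v) • (1 : D) = 0 := by rw [sub_smul, huv, sub_self]
    rcases smul_eq_zero.1 h1 with h | h
    · exact hne (sub_eq_zero.1 h)
    · exact one_ne_zero h
  have hD : FiniteDimensional K D := FiniteDimensional.right F K D
  let b : Basis (Fin (finrank F K)) F K := Module.finBasis F K
  let c : Basis (Fin (finrank K D)) K D := Module.finBasis K D
  let e : Basis (Fin (finrank F K) × Fin (finrank K D)) F D := b.smulTower c
  rw [LinearMap.trace_eq_matrix_trace F e, Algebra.trace_eq_matrix_trace b,
    Algebra.toMatrix_lmul_eq]
  simp only [Matrix.trace, Matrix.diag, Algebra.leftMulMatrix_eq_repr_mul]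
  rw [Fintype.sum_prod_type_right]
  have h1 : ∀ (k : Fin (finrank K D)) (i : Fin (finrank F K)),
      e.repr ((y • (1 : D)) * e (i, k)) (i, k) = b.repr (y * b i) i := by
    intro k i
    simp only [e]
    rw [Basis.smulTower_apply, Basis.smulTower_repr_mk, ← hmul, one_mul, smul_smul, map_smul,
      Basis.repr_self]
    simp
  simp only [h1]
  rw [Finset.sum_const, Finset.card_univ, Fintype.card_fin]

theorem sq_finrank_le (hmul : ∀ (y : K) (x z : D), y • (x * z) = (y • x) * z)
    (hc : ∀ z : D, (∀ y, z * y = y * z) → z ∈ Set.range (algebraMap F D)) :
    finrank F K ^ 2 ≤ finrank F D := by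
  classical
  have hK : FiniteDimensional F K := by
    refine FiniteDimensional.of_injective (LinearMap.toSpanSingleton K D 1 |>.restrictScalars F) ?_
    intro u v huv
    simp only [LinearMap.coe_restrictScalars, LinearMap.toSpanSingleton_apply] at huv
    by_contra hne
    have h1 : (u - v) • (1 : D) = 0 := by rw [sub_smul, huv, sub_self]
    rcases smul_eq_zero.1 h1 with h | h
    · exact hne (sub_eq_zero.1 h)
    · exact one_ne_zero h
  have hD : FiniteDimensional K D := FiniteDimensional.right F K D
  have hde : finrank F K * finrank K D = finrank F D := finrank_mul_finrank F K D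
  let b := Module.finBasis F K
  -- the map `(d i) ↦ (x ↦ ∑ b i • (x * d i))`
  let Ψ : (Fin (finrank F K) → D) →ₗ[F] (D →ₗ[K] D) :=
    { toFun := fun d =>
        { toFun := fun x => ∑ i, b i • (x * d i)
          map_add' := fun x y => by
            simp only [add_mul, smul_add, Finset.sum_add_distrib]
          map_smul' := fun y x => by
            simp only [RingHom.id_apply, Finset.smul_sum]
            refine Finset.sum_congr rfl fun i _ => ?_
            rw [← hmul, smul_smul, smul_smul, mul_comm] }
      map_add' := fun d e => by
        ext x
        simp only [Pi.add_apply, mul_add, smul_add, Finset.sum_add_distrib, LinearMap.coe_mk,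
          AddHom.coe_mk, LinearMap.add_apply]
      map_smul' := fun t d => by
        ext x
        simp only [Pi.smul_apply, RingHom.id_apply, LinearMap.coe_mk, AddHom.coe_mk,
          LinearMap.smul_apply, Finset.smul_sum]
        refine Finset.sum_congr rfl fun i _ => ?_
        rw [Algebra.mul_smul_comm, smul_comm] }
  have hinj : Function.Injective Ψ := by
    rw [← LinearMap.ker_eq_bot, LinearMap.ker_eq_bot']
    intro d hd
    have h1 : ∀ x : D, ∑ i, (b i • (1 : D)) * x * d i = 0 := by
      intro x
      have := LinearMap.congr_fun hd x
      simp only [Ψ, LinearMap.coe_mk, AddHom.coe_mk, LinearMap.zero_apply] at this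
      rw [← this]
      refine Finset.sum_congr rfl fun i _ => ?_
      rw [mul_assoc, ← hmul, one_mul]
    have h2 : LinearIndependent F (fun i => b i • (1 : D)) := by
      have h3 := b.linearIndependent.map' (LinearMap.toSpanSingleton K D 1 |>.restrictScalars F) (by
        rw [LinearMap.ker_eq_bot]
        intro u v huv
        simp only [LinearMap.coe_restrictScalars, LinearMap.toSpanSingleton_apply] at huv
        by_contra hne
        have h1 : (u - v) • (1 : D) = 0 := by rw [sub_smul, huv, sub_self]
        rcases smul_eq_zero.1 h1 with h | h
        · exact hne (sub_eq_zero.1 h)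
        · exact one_ne_zero h)
      exact h3
    funext i
    exact indep hc _ h2 Finset.univ d h1 i (Finset.mem_univ i)
  have h1 := LinearMap.finrank_le_finrank_of_injective hinj
  have h2 : finrank F (Fin (finrank F K) → D) = finrank F K * finrank F D := by
    rw [Module.finrank_pi_fintype]
    simp
  have h3 : finrank F (D →ₗ[K] D) = finrank F K * (finrank K D * finrank K D) := by
    rw [← Module.finrank_linearMap K K D D]
    exact (finrank_mul_finrank F K (D →ₗ[K] D)).symm
  rw [h2, h3] at h1
  have hpos : 0 < finrank F K := finrank_pos
  have hposD : 0 < finrank K D := finrank_pos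
  have h4 : finrank F D ≤ finrank K D * finrank K D := Nat.le_of_mul_le_mul_left h1 hpos
  have h5 : finrank F K ≤ finrank K D := by
    rw [← hde] at h4
    exact Nat.le_of_mul_le_mul_right h4 hposD
  rw [sq, ← hde]
  exact Nat.mul_le_mul_left _ h5

end Tower

end Pool.Agent.H81.CY
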