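import Mathlib
import Pool.Agent.H81.CY.Zero

/-!
# Traces of powers of linear combinations of matrices over `k[s, t]`
-/

set_option autoImplicit false

namespace Pool.Agent.H81.CY

open MvPolynomial

/-- All partial degrees are at most `d`. -/
def BD {A : Type*} [CommRing A] (p : MvPolynomial (Fin 2) A) (d : ℕ) : Prop :=
  ∀ i, degreeOf i p ≤ d

section BD

variable {A : Type*} [CommRing A]

lemma BD.mono {p : MvPolynomial (Fin 2) A} {d e : ℕ} (h : BD p d) (hde : d ≤ e) : BD p e :=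
  fun i => (h i).trans hde

lemma BD.zero (d : ℕ) : BD (0 : MvPolynomial (Fin 2) A) d := fun i => by simp

lemma BD.one (d : ℕ) : BD (1 : MvPolynomial (Fin 2) A) d := fun i => by simp

lemma BD.mul {p q : MvPolynomial (Fin 2) A} {d e : ℕ} (hp : BD p d) (hq : BD q e) :
    BD (p * q) (d + e) := fun i => (degreeOf_mul_le i p q).trans (add_le_add (hp i) (hq i))

lemma BD.sum {ι : Type*} (s : Finset ι) (f : ι → MvPolynomial (Fin 2) A) {d : ℕ}
    (h : ∀ i ∈ s, BD (f i) d) : BD (∑ i ∈ s, f i) d := fun j =>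
  (degreeOf_sum_le j s f).trans (Finset.sup_le fun i hi => h i hi j)

lemma BD.pow_entry {m : ℕ} {X : Matrix (Fin m) (Fin m) (MvPolynomial (Fin 2) A)} {d : ℕ}
    (h : ∀ a b, BD (X a b) d) (j : ℕ) : ∀ a b, BD ((X ^ j) a b) (j * d) := by
  induction j with
  | zero =>
    intro a b
    rw [pow_zero, Matrix.one_apply]
    split_ifs
    · exact BD.one _
    · exact BD.zero _
  | succ j ih =>
    intro a b
    rw [pow_succ, Matrix.mul_apply]
    refine BD.sum _ _ fun c _ => ?_
    have := (ih a c).mul (h c b)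
    refine this.mono ?_
    rw [Nat.succ_mul]

lemma BD.trace_pow {m : ℕ} {X : Matrix (Fin m) (Fin m) (MvPolynomial (Fin 2) A)} {d : ℕ}
    (h : ∀ a b, BD (X a b) d) (j : ℕ) : BD (Matrix.trace (X ^ j)) (j * d) :=
  BD.sum _ _ fun a _ => BD.pow_entry h j a a

lemma BD.map {B : Type*} [CommRing B] (φ : A →+* B) {p : MvPolynomial (Fin 2) A} {d : ℕ}
    (h : BD p d) : BD (MvPolynomial.map φ p) d := by
  intro i
  rw [degreeOf_le_iff]
  intro m hm
  have hm' : m ∈ p.support := by
    rw [mem_support_iff, coeff_map] at hm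
    rw [mem_support_iff]
    intro h0
    exact hm (by rw [h0, map_zero])
  exact (degreeOf_le_iff.1 (h i)) m hm'

end BD

/-- The exponent of `s ^ a * t ^ b`. -/
noncomputable def ex (a b : ℕ) : Fin 2 →₀ ℕ := Finsupp.single 0 a + Finsupp.single 1 b

lemma ex_zero (a b : ℕ) : ex a b 0 = a := by simp [ex]

lemma ex_one (a b : ℕ) : ex a b 1 = b := by simp [ex]

lemma ex_eta (m : Fin 2 →₀ ℕ) : ex (m 0) (m 1) = m := by
  ext i
  fin_cases i
  · simp [ex]
  · simp [ex]

lemma ex_inj {a b a' b' : ℕ} (h : ex a b = ex a' b') : a = a' ∧ b = b' := by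
  refine ⟨?_, ?_⟩
  · have := DFunLike.congr_fun h 0
    rwa [ex_zero, ex_zero] at this
  · have := DFunLike.congr_fun h 1
    rwa [ex_one, ex_one] at this

/-- The polynomial with the coefficients `y a b`, `a, b ≤ N`. -/
noncomputable def poly {A : Type*} [CommRing A] (N : ℕ) (y : Fin (N + 1) → Fin (N + 1) → A) :
    MvPolynomial (Fin 2) A :=
  ∑ a : Fin (N + 1), ∑ b : Fin (N + 1), monomial (ex a.1 b.1) (y a b)

lemma BD_poly {A : Type*} [CommRing A] (N : ℕ) (y : Fin (N + 1) → Fin (N + 1) → A) :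
    BD (poly N y) N := by
  refine BD.sum _ _ fun a _ => BD.sum _ _ fun b _ => ?_
  intro i
  rw [degreeOf_le_iff]
  intro m hm
  have := MvPolynomial.support_monomial_subset hm
  rw [Finset.mem_singleton] at this
  subst this
  fin_cases i
  · simpa [ex] using Nat.lt_succ_iff.1 a.2
  · simpa [ex] using Nat.lt_succ_iff.1 b.2

lemma coeff_poly {A : Type*} [CommRing A] (N : ℕ) (y : Fin (N + 1) → Fin (N + 1) → A)
    (a b : Fin (N + 1)) : coeff (ex a b) (poly N y) = y a b := by
  classical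
  unfold poly
  rw [coeff_sum, Finset.sum_eq_single a]
  · rw [coeff_sum, Finset.sum_eq_single b]
    · rw [coeff_monomial, if_pos rfl]
    · intro b' _ hb
      rw [coeff_monomial, if_neg]
      intro h
      exact hb (Fin.ext (ex_inj h).2)
    · simp
  · intro a' _ ha
    rw [coeff_sum]
    refine Finset.sum_eq_zero fun b' _ => ?_
    rw [coeff_monomial, if_neg]
    intro h
    exact ha (Fin.ext (ex_inj h).1)
  · simp

lemma map_poly {A B : Type*} [CommRing A] [CommRing B] (φ : A →+* B) (N : ℕ)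
    (y : Fin (N + 1) → Fin (N + 1) → A) :
    MvPolynomial.map φ (poly N y) = poly N (fun a b => φ (y a b)) := by
  unfold poly
  simp [map_sum, map_monomial]

lemma eq_zero_of_box {A : Type*} [CommRing A] {p : MvPolynomial (Fin 2) A} {d : ℕ} (h : BD p d)
    (h0 : ∀ a b : Fin (d + 1), coeff (ex a b) p = 0) : p = 0 := by
  ext m
  rw [coeff_zero]
  by_cases hm : m ∈ p.support
  · have h1 := (degreeOf_le_iff.1 (h 0)) m hm
    have h2 := (degreeOf_le_iff.1 (h 1)) m hm
    have := h0 ⟨m 0, Nat.lt_succ_of_le h1⟩ ⟨m 1, Nat.lt_succ_of_le h2⟩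
    simpa [ex_eta] using this
  · simpa [mem_support_iff] using hm

lemma exists_bound {k : Type*} [CommRing k] {ι : Type*} [Fintype ι]
    (f : ι → MvPolynomial (Fin 2) k) : ∃ C, ∀ i, BD (f i) C := by
  refine ⟨∑ i, ∑ j, degreeOf j (f i), fun i j => ?_⟩
  calc degreeOf j (f i) ≤ ∑ j, degreeOf j (f i) :=
        Finset.single_le_sum (f := fun j => degreeOf j (f i)) (fun _ _ => Nat.zero_le _)
          (Finset.mem_univ j)
    _ ≤ _ := Finset.single_le_sum (f := fun i => ∑ j, degreeOf j (f i))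
          (fun _ _ => Nat.zero_le _) (Finset.mem_univ i)

lemma numbers {n r C : ℕ} (h : ∑ j ∈ Finset.range r, (j + 1) ^ 2 < n) :
    ∃ N : ℕ, ∑ j ∈ Finset.range r, ((j + 1) * (N + C) + 1) ^ 2 < n * (N + 1) ^ 2 := by
  refine ⟨3 * n * C, ?_⟩
  set N := 3 * n * C with hN
  have h1 : ∑ j ∈ Finset.range r, ((j + 1) * (N + C) + 1) ^ 2 ≤
      (∑ j ∈ Finset.range r, (j + 1) ^ 2) * (N + C + 1) ^ 2 := by
    rw [Finset.sum_mul]
    refine Finset.sum_le_sum fun j _ => ?_
    rw [← mul_pow]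
    refine Nat.pow_le_pow_left ?_ 2
    nlinarith
  refine h1.trans_lt ?_
  obtain ⟨m, rfl⟩ : ∃ m, n = m + 1 := ⟨n - 1, by omega⟩
  have h2 : ∑ j ∈ Finset.range r, (j + 1) ^ 2 ≤ m := by omega
  refine (Nat.mul_le_mul_right _ h2).trans_lt ?_
  have h3 : m * (2 * (N + 1) * C + C ^ 2) < (N + 1) ^ 2 := by
    rw [hN]
    have : 0 ≤ m * C := Nat.zero_le _
    nlinarith [Nat.zero_le (m * m * C * C), Nat.zero_le (m * C * C), Nat.zero_le (C * C),
      Nat.zero_le (m * C), Nat.zero_le C]
  calc m * (N + C + 1) ^ 2 = m * (N + 1) ^ 2 + m * (2 * (N + 1) * C + C ^ 2) := by ring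
    _ < m * (N + 1) ^ 2 + (N + 1) ^ 2 := by omega
    _ = (m + 1) * (N + 1) ^ 2 := by ring

/-- **Lang-Nagata for traces of powers.** -/
theorem exists_trace_zero {k : Type*} [Field k] [IsAlgClosed k] {n m r : ℕ}
    (M : Fin n → Matrix (Fin m) (Fin m) (MvPolynomial (Fin 2) k))
    (h : ∑ j ∈ Finset.range r, (j + 1) ^ 2 < n) :
    ∃ x : Fin n → MvPolynomial (Fin 2) k, x ≠ 0 ∧
      ∀ j < r, Matrix.trace ((∑ i, x i • M i) ^ (j + 1)) = 0 := by
  classical
  obtain ⟨C, hC⟩ := exists_bound (fun q : Fin n × Fin m × Fin m => M q.1 q.2.1 q.2.2)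
  obtain ⟨N, hN⟩ := numbers (C := C) h
  let σ := Fin n × Fin (N + 1) × Fin (N + 1)
  let A := MvPolynomial σ k
  let M' : Fin n → Matrix (Fin m) (Fin m) (MvPolynomial (Fin 2) A) := fun i =>
    (M i).map (MvPolynomial.map (MvPolynomial.C : k →+* A))
  let XX : Matrix (Fin m) (Fin m) (MvPolynomial (Fin 2) A) :=
    ∑ i, poly N (fun a b => (X (i, a, b) : A)) • M' i
  let ι := (j : Fin r) × (Fin ((j.1 + 1) * (N + C) + 1) × Fin ((j.1 + 1) * (N + C) + 1))
  let f : ι → A := fun q => coeff (ex q.2.1 q.2.2) (Matrix.trace (XX ^ (q.1.1 + 1)))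
  -- the specialisation
  let x : (σ → k) → Fin n → MvPolynomial (Fin 2) k := fun y i => poly N (fun a b => y (i, a, b))
  have hXX : ∀ y : σ → k, XX.map (MvPolynomial.map (eval y)) = ∑ i, x y i • M i := by
    intro y
    ext a b
    simp only [XX, Matrix.map_apply, Matrix.sum_apply, Matrix.smul_apply, smul_eq_mul, map_sum,
      map_mul, map_poly, eval_X, x, M']
    refine congrArg _ (Finset.sum_congr rfl fun i _ => ?_)
    congr 2
    rw [MvPolynomial.map_map]
    have : (eval y).comp (MvPolynomial.C : k →+* A) = RingHom.id k := by ext c; simp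
    rw [this, MvPolynomial.map_id]
  have htr : ∀ (y : σ → k) (j : ℕ), MvPolynomial.map (eval y) (Matrix.trace (XX ^ j)) =
      Matrix.trace ((∑ i, x y i • M i) ^ j) := by
    intro y j
    rw [← hXX y]
    have h1 : (XX.map (MvPolynomial.map (eval y))) ^ j =
        (XX ^ j).map (MvPolynomial.map (eval y)) := by
      have := map_pow (RingHom.mapMatrix (m := Fin m) (MvPolynomial.map (eval y))) XX j
      simpa [RingHom.mapMatrix_apply] using this.symm
    rw [h1]
    exact AddMonoidHom.map_trace (MvPolynomial.map (eval y)) (XX ^ j)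
  have hf : ∀ (y : σ → k) (q : ι), eval y (f q) =
      coeff (ex q.2.1 q.2.2) (Matrix.trace ((∑ i, x y i • M i) ^ (q.1.1 + 1))) := by
    intro y q
    rw [← htr, coeff_map]
  have hx0 : x 0 = 0 := by
    ext1 i
    simp [x, poly]
  obtain ⟨y, hy, hz⟩ := exists_zero f (by
    intro q
    rw [hf, hx0]
    simp) (by
    have h1 : Fintype.card ι = ∑ j : Fin r, ((j.1 + 1) * (N + C) + 1) ^ 2 := by
      simp only [ι, Fintype.card_sigma, Fintype.card_prod, Fintype.card_fin, sq]
    have h2 : Fintype.card σ = n * (N + 1) ^ 2 := by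
      simp only [σ, Fintype.card_prod, Fintype.card_fin, sq]
    rw [h1, h2, Fin.sum_univ_eq_sum_range (fun j => ((j + 1) * (N + C) + 1) ^ 2) r]
    exact hN)
  refine ⟨x y, fun h0 => hy ?_, fun j hj => ?_⟩
  · ext q
    obtain ⟨i, a, b⟩ := q
    have h1 : x y i = 0 := congrFun h0 i
    have h2 := coeff_poly N (fun a b => y (i, a, b)) a b
    have h3 : poly N (fun a b => y (i, a, b)) = 0 := h1
    rw [h3, coeff_zero] at h2
    exact h2.symm
  · have hbd : ∀ a b, BD ((∑ i, x y i • M i) a b) (N + C) := by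
      intro a b
      rw [Matrix.sum_apply]
      refine BD.sum _ _ fun i _ => ?_
      rw [Matrix.smul_apply, smul_eq_mul]
      exact (BD_poly N _).mul (hC (i, a, b))
    refine eq_zero_of_box (BD.trace_pow hbd (j + 1)) fun a b => ?_
    have := hz ⟨⟨j, hj⟩, a, b⟩
    rw [hf] at this
    exact this

end Pool.Agent.H81.CY
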