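import Mathlib

/-!
# Elements of a field extension all of whose low powers have trace zero
-/

set_option autoImplicit false

namespace Pool.Agent.H81.CY

open Module Polynomial

theorem kummer_of_trace {F K : Type*} [Field F] [Field K] [Algebra F K] [CharZero F]
    [FiniteDimensional F K] (α : K) (hα : α ≠ 0) (r : ℕ) (hd : finrank F K ≤ r + 1)
    (htr : ∀ j, 1 ≤ j → j ≤ r → Algebra.trace F K (α ^ j) = 0) :
    finrank F K = r + 1 ∧ ∃ c : F, α ^ (r + 1) = algebraMap F K c := by
  classical
  let L := AlgebraicClosure F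
  let v : (K →ₐ[F] L) → L := fun σ => σ α
  have hcard : Fintype.card (K →ₐ[F] L) = finrank F K := AlgHom.card F K L
  have hps : ∀ j, 1 ≤ j → j ≤ r → ∑ σ, v σ ^ j = 0 := by
    intro j h1 h2
    have h3 := trace_eq_sum_embeddings (K := F) (L := K) L (x := α ^ j)
    rw [htr j h1 h2, map_zero] at h3
    rw [h3]
    exact Finset.sum_congr rfl fun σ _ => (map_pow σ α j).symm
  have hes : ∀ j, 1 ≤ j → j ≤ r →
      MvPolynomial.aeval v (MvPolynomial.esymm (K →ₐ[F] L) F j) = 0 := by
    intro j h1 h2
    have h3 := congrArg (MvPolynomial.aeval v) (MvPolynomial.mul_esymm_eq_sum (K →ₐ[F] L) F j)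
    rw [map_mul, map_natCast] at h3
    have h4 : MvPolynomial.aeval v ((-1) ^ (j + 1) *
        ∑ a ∈ Finset.HasAntidiagonal.antidiagonal j with a.1 < j, (-1) ^ a.1 *
          MvPolynomial.esymm (K →ₐ[F] L) F a.1 * MvPolynomial.psum (K →ₐ[F] L) F a.2) = 0 := by
      rw [map_mul, map_sum]
      refine mul_eq_zero_of_right _ (Finset.sum_eq_zero fun a ha => ?_)
      rw [Finset.mem_filter, Finset.HasAntidiagonal.mem_antidiagonal] at ha
      rw [map_mul]
      refine mul_eq_zero_of_right _ ?_
      rw [MvPolynomial.psum, map_sum]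
      have := hps a.2 (by omega) (by omega)
      rw [← this]
      exact Finset.sum_congr rfl fun σ _ => by simp
    rw [h4] at h3
    rcases mul_eq_zero.1 h3 with h5 | h5
    · exact absurd (Nat.cast_eq_zero.1 h5) (by omega)
    · exact h5
  set s : Multiset L := (Finset.univ : Finset (K →ₐ[F] L)).val.map v with hs
  have hsc : Multiset.card s = finrank F K := by
    rw [hs, Multiset.card_map, Finset.card_val, Finset.card_univ, hcard]
  have hse : ∀ j, 1 ≤ j → j ≤ r → s.esymm j = 0 := by
    intro j h1 h2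
    rw [hs, ← MvPolynomial.aeval_esymm_eq_multiset_esymm (K →ₐ[F] L) F j v]
    exact hes j h1 h2
  have hev : ∀ σ : K →ₐ[F] L, ∑ j ∈ Finset.range (finrank F K + 1),
      (-1) ^ j * (s.esymm j * (v σ) ^ (finrank F K - j)) = 0 := by
    intro σ
    have h1 := congrArg (Polynomial.eval (v σ)) (Multiset.prod_X_sub_X_eq_sum_esymm s)
    have h2 : Polynomial.eval (v σ) (s.map fun t => X - C t).prod = 0 := by
      rw [Polynomial.eval_multiset_prod, Multiset.map_map]
      refine Multiset.prod_eq_zero ?_
      rw [Multiset.mem_map]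
      refine ⟨v σ, ?_, by simp⟩
      rw [hs, Multiset.mem_map]
      exact ⟨σ, Finset.mem_univ_val σ, rfl⟩
    rw [h2, Polynomial.eval_finsetSum] at h1
    rw [hsc] at h1
    rw [h1]
    exact Finset.sum_congr rfl fun j _ => by simp
  have hne : ∀ σ : K →ₐ[F] L, v σ ≠ 0 := fun σ h => hα (by
    have : σ α = 0 := h
    simpa using this)
  obtain ⟨σ₀⟩ : Nonempty (K →ₐ[F] L) := by
    rw [← Fintype.card_pos_iff, hcard]
    exact finrank_pos
  have hdr : finrank F K = r + 1 := by
    by_contra hcon
    have hle : finrank F K ≤ r := by omega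
    have h1 := hev σ₀
    rw [Finset.sum_eq_single 0] at h1
    · simp [Multiset.esymm, Multiset.powersetCard_zero_left] at h1
      exact hne σ₀ h1.1
    · intro j hj hj0
      rw [Finset.mem_range] at hj
      rw [hse j (by omega) (by omega)]
      simp
    · simp
  refine ⟨hdr, ?_⟩
  have hc : ∀ σ : K →ₐ[F] L, v σ ^ (r + 1) = - ((-1) ^ (r + 1) * s.esymm (r + 1)) := by
    intro σ
    have h1 := hev σ
    rw [hdr, Finset.sum_range_succ, Finset.sum_eq_single 0] at h1
    · simp [Multiset.esymm, Multiset.powersetCard_zero_left] at h1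
      simp only [Multiset.esymm]
      linear_combination h1
    · intro j hj hj0
      rw [Finset.mem_range] at hj
      rw [hse j (by omega) (by omega)]
      simp
    · simp
  refine ⟨Algebra.trace F K (α ^ (r + 1)) / (r + 1 : ℕ), ?_⟩
  have hinj : Function.Injective σ₀ := σ₀.injective
  apply hinj
  have h3 := trace_eq_sum_embeddings (K := F) (L := K) L (x := α ^ (r + 1))
  have h4 : ∀ σ : K →ₐ[F] L, σ (α ^ (r + 1)) = σ₀ (α ^ (r + 1)) := by
    intro σ
    rw [map_pow, map_pow]
    exact (hc σ).trans (hc σ₀).symm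
  rw [Finset.sum_congr rfl fun σ _ => h4 σ, Finset.sum_const, Finset.card_univ, hcard, hdr,
    nsmul_eq_mul] at h3
  have h5 : ((r + 1 : ℕ) : L) ≠ 0 := by
    have : ((r + 1 : ℕ) : L) = algebraMap F L ((r + 1 : ℕ) : F) := by simp
    rw [this]
    rw [Ne, map_eq_zero]
    exact Nat.cast_ne_zero.2 (Nat.succ_ne_zero r)
  rw [AlgHom.commutes, map_div₀, h3, map_natCast, mul_comm, mul_div_assoc, div_self h5, mul_one]

end Pool.Agent.H81.CY
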