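import Mathlib
import Pool.Agent.H81.CY.Count
import Pool.Agent.H81.CY.Kummer
import Pool.Agent.H81.CY.Central

/-!
# Division algebras of small degree over `k(s, t)`
-/

set_option autoImplicit false

namespace Pool.Agent.H81.CY

open Module

section Elt

variable {k : Type*} [Field k] [IsAlgClosed k]

local instance : IsDomain (MvPolynomial (Fin 2) k) := inferInstance

/-- Elements of an algebra over `k(s, t)` whose low powers have trace zero. -/
theorem exists_elt {D : Type*} [DivisionRing D] [Algebra (FractionRing (MvPolynomial (Fin 2) k)) D]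
    [FiniteDimensional (FractionRing (MvPolynomial (Fin 2) k)) D] (r : ℕ)
    (h : ∑ j ∈ Finset.range r, (j + 1) ^ 2 <
      finrank (FractionRing (MvPolynomial (Fin 2) k)) D) :
    ∃ z : D, z ≠ 0 ∧ ∀ j, 1 ≤ j → j ≤ r →
      LinearMap.trace (FractionRing (MvPolynomial (Fin 2) k)) D
        (LinearMap.mulLeft (FractionRing (MvPolynomial (Fin 2) k)) (z ^ j)) = 0 := by
  classical
  set R := MvPolynomial (Fin 2) k with hR
  set F := FractionRing R with hF
  set n := finrank F D with hn
  let b : Basis (Fin n) F D := Module.finBasis F D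
  obtain ⟨d, hd⟩ := IsLocalization.exist_integer_multiples_of_finite (nonZeroDivisors R)
    (S := F) (fun q : Fin n × Fin n × Fin n => Algebra.leftMulMatrix b (b q.1) q.2.1 q.2.2)
  choose M hM using hd
  obtain ⟨x, hx, htr⟩ := exists_trace_zero (r := r)
    (fun i => Matrix.of fun a c => M (i, a, c)) h
  have hd0 : algebraMap R F (d : R) ≠ 0 :=
    IsLocalization.to_map_ne_zero_of_mem_nonZeroDivisors F le_rfl d.2
  let z : D := ∑ i, algebraMap R F (x i) • b i
  refine ⟨z, fun hz => hx ?_, fun j hj1 hj2 => ?_⟩
  · have h1 := (linearIndependent_iff'.1 b.linearIndependent) Finset.univ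
      (fun i => algebraMap R F (x i)) hz
    funext i
    exact (IsFractionRing.injective R F) ((h1 i (Finset.mem_univ i)).trans (map_zero _).symm)
  · obtain ⟨j, rfl⟩ : ∃ j', j = j' + 1 := ⟨j - 1, by omega⟩
    have h1 := congrArg (algebraMap R F) (htr j (by omega))
    rw [map_zero] at h1
    have h2 : algebraMap R F (Matrix.trace
        ((∑ i, x i • (Matrix.of fun a c => M (i, a, c))) ^ (j + 1))) =
        Matrix.trace ((algebraMap R F (d : R) • Algebra.leftMulMatrix b z) ^ (j + 1)) := by
      have h3 : ((∑ i, x i • (Matrix.of fun a c => M (i, a, c)) : Matrix (Fin n) (Fin n) R)).map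
          (algebraMap R F) = algebraMap R F (d : R) • Algebra.leftMulMatrix b z := by
        ext a c
        simp only [z, map_sum, map_smul, Matrix.map_apply, Matrix.sum_apply, Matrix.smul_apply,
          smul_eq_mul, Matrix.of_apply, map_mul, Finset.mul_sum]
        refine Finset.sum_congr rfl fun i _ => ?_
        have := hM (i, a, c)
        rw [this, Algebra.smul_def]
        ring
      rw [← h3]
      have h4 := map_pow (RingHom.mapMatrix (m := Fin n) (algebraMap R F))
        (∑ i, x i • (Matrix.of fun a c => M (i, a, c)) : Matrix (Fin n) (Fin n) R) (j + 1)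
      rw [RingHom.mapMatrix_apply, RingHom.mapMatrix_apply] at h4
      rw [← h4]
      exact AddMonoidHom.map_trace (algebraMap R F) _
    rw [h2, smul_pow, Matrix.trace_smul, smul_eq_mul] at h1
    have h3 := (mul_eq_zero.1 h1).resolve_left (pow_ne_zero _ hd0)
    rw [LinearMap.trace_eq_matrix_trace F b, Algebra.toMatrix_lmul_eq, map_pow]
    exact h3

end Elt

section Main

universe u v

variable {F : Type u} {D : Type v} [Field F] [CharZero F] [DivisionRing D] [Algebra F D]
  [FiniteDimensional F D]

theorem cyclic_of_trace (hc : ∀ z : D, (∀ y, z * y = y * z) → z ∈ Set.range (algebraMap F D))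
    (r : ℕ) (hfin : finrank F D = (r + 1) ^ 2) (hprim : (primitiveRoots (r + 1) F).Nonempty)
    (z : D) (hz : z ≠ 0)
    (htr : ∀ j, 1 ≤ j → j ≤ r → LinearMap.trace F D (LinearMap.mulLeft F (z ^ j)) = 0) :
    ∃ (K : Type u) (_ : Field K) (_ : Algebra F K) (_ : K →ₐ[F] D),
      finrank F K = r + 1 ∧ IsGalois F K ∧ IsCyclic (K ≃ₐ[F] K) := by
  classical
  have hint : IsIntegral F z := IsIntegral.of_finite F z
  have hirr : Irreducible (minpoly F z) := minpoly.irreducible hint
  have : Fact (Irreducible (minpoly F z)) := ⟨hirr⟩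
  let K := AdjoinRoot (minpoly F z)
  let φ : K →ₐ[F] D := Ideal.Quotient.liftₐ _ (Polynomial.aeval z) (by
    intro p hp
    obtain ⟨q, rfl⟩ := Ideal.mem_span_singleton'.1 hp
    rw [map_mul, minpoly.aeval, mul_zero])
  have hφ : φ (AdjoinRoot.root (minpoly F z)) = z := by
    change φ (AdjoinRoot.mk _ Polynomial.X) = z
    have : φ (AdjoinRoot.mk _ Polynomial.X) = Polynomial.aeval z (Polynomial.X : Polynomial F) :=
      rfl
    rw [this, Polynomial.aeval_X]
  set α : K := AdjoinRoot.root (minpoly F z) with hα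
  letI : Module K D := Module.compHom D φ.toRingHom
  have hsm : ∀ (y : K) (x : D), y • x = φ y * x := fun _ _ => rfl
  have : IsScalarTower F K D := ⟨fun a y x => by
    rw [hsm, hsm, map_smul, Algebra.smul_mul_assoc]⟩
  have hmul : ∀ (y : K) (x w : D), y • (x * w) = (y • x) * w := by
    intro y x w
    rw [hsm, hsm, mul_assoc]
  have hfK : FiniteDimensional F K :=
    FiniteDimensional.of_injective φ.toLinearMap φ.toRingHom.injective
  have hle := sq_finrank_le (F := F) (K := K) (D := D) hmul hc
  rw [hfin] at hle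
  have hle' : finrank F K ≤ r + 1 := by
    by_contra hcon
    have : (r + 1) ^ 2 < finrank F K ^ 2 := Nat.pow_lt_pow_left (not_le.1 hcon) two_ne_zero
    omega
  have hposD : 0 < finrank K D := by
    have : FiniteDimensional K D := FiniteDimensional.right F K D
    exact finrank_pos
  have htrK : ∀ j, 1 ≤ j → j ≤ r → Algebra.trace F K (α ^ j) = 0 := by
    intro j h1 h2
    have h3 := trace_lmul (F := F) (K := K) (D := D) hmul (α ^ j)
    rw [hsm, mul_one, map_pow, hφ, htr j h1 h2] at h3
    rw [nsmul_eq_mul] at h3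
    exact (mul_eq_zero.1 h3.symm).resolve_left (Nat.cast_ne_zero.2 hposD.ne')
  have hα0 : α ≠ 0 := by
    intro h
    rw [h, map_zero] at hφ
    exact hz hφ.symm
  obtain ⟨h1, c, h2⟩ := kummer_of_trace α hα0 r hle' htrK
  refine ⟨K, inferInstance, inferInstance, φ, h1, ?_⟩
  have h3 := (isCyclic_tfae F K (by rw [h1]; exact hprim)).out 2 0
  refine h3.1 ⟨α, ⟨c, by rw [h1]; exact h2.symm⟩, ?_⟩
  have h4 : Algebra.adjoin F ({α} : Set K) = ⊤ := AdjoinRoot.adjoinRoot_eq_top
  exact IntermediateField.adjoin_eq_top_of_algebra F _ h4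

end Main

end Pool.Agent.H81.CY
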